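import Mathlib

/-!
# Two sections which differ by elements of a finite `ℓ`-group

(helper889.)
-/

set_option autoImplicit false
set_option linter.all false

namespace Pool.Agent.H889.RG

variable {ℓ : ℕ} [hℓ : Fact ℓ.Prime]

/-- a proper subgroup of a finite `ℓ`-group lies in a normal subgroup of index `ℓ` -/
theorem exists_index {P : Type*} [Group P] [Finite P] (hP : IsPGroup ℓ P) (H : Subgroup P)
    (hH : H ≠ ⊤) : ∃ K : Subgroup P, K.Normal ∧ K.index = ℓ ∧ H ≤ K := by
  haveI := hP.isNilpotent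
  obtain h | ⟨K, hK, hHK⟩ := eq_top_or_exists_le_coatom H
  · exact absurd h hH
  have hn : K.Normal := Subgroup.NormalizerCondition.normal_of_coatom K (Group.normalizerCondition_of_isNilpotent (G := P)) hK
  refine ⟨K, hn, ?_, hHK⟩
  have hQ : IsPGroup ℓ (P ⧸ K) := hP.to_quotient K
  haveI : Nontrivial (P ⧸ K) := by
    by_contra hno
    rw [not_nontrivial_iff_subsingleton] at hno
    exact hK.1 (QuotientGroup.subsingleton_iff.1 hno)
  have hdvd : ℓ ∣ Nat.card (P ⧸ K) := by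
    obtain ⟨n, hn⟩ := IsPGroup.iff_card.1 hQ
    rw [hn]
    rcases Nat.eq_zero_or_pos n with h0 | h0
    · subst h0
      rw [pow_zero] at hn
      have := Finite.one_lt_card_iff_nontrivial.2 (inferInstance : Nontrivial (P ⧸ K))
      omega
    · exact dvd_pow_self ℓ h0.ne'
  obtain ⟨c, hc⟩ := exists_prime_orderOf_dvd_card' ℓ hdvd
  have h1 : (Subgroup.zpowers c).comap (QuotientGroup.mk' K) = ⊤ := by
    have h2 : K < (Subgroup.zpowers c).comap (QuotientGroup.mk' K) := by
      refine lt_of_le_of_ne ?_ ?_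
      · intro z hz
        rw [Subgroup.mem_comap]
        have : QuotientGroup.mk' K z = 1 := (QuotientGroup.eq_one_iff z).2 hz
        rw [this]
        exact one_mem _
      · intro h
        obtain ⟨c', hc'⟩ := QuotientGroup.mk'_surjective K c
        have h3 : c' ∈ (Subgroup.zpowers c).comap (QuotientGroup.mk' K) := by
          rw [Subgroup.mem_comap, hc']
          exact Subgroup.mem_zpowers c
        rw [← h] at h3
        have h4 : c = 1 := by
          rw [← hc']
          exact (QuotientGroup.eq_one_iff c').2 h3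
        rw [h4, orderOf_one] at hc
        exact hℓ.out.one_lt.ne hc
    exact hK.2 _ h2
  have h2 : Subgroup.zpowers c = ⊤ := by
    rw [eq_top_iff]
    intro z _
    obtain ⟨z', rfl⟩ := QuotientGroup.mk'_surjective K z
    have : z' ∈ (Subgroup.zpowers c).comap (QuotientGroup.mk' K) := by rw [h1]; trivial
    exact this
  rw [Subgroup.index, ← hc, ← Nat.card_zpowers, h2]
  exact (Nat.card_congr Subgroup.topEquiv.toEquiv).symm

/-- a subgroup which contains a normal subgroup with a quotient of `ℓ`-power order -/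
theorem exists_index' {G : Type*} [Group G] (U : Subgroup G) (hUn : U.Normal)
    (hUf : U.FiniteIndex) (hU : ∀ g : G, ∃ a : ℕ, g ^ (ℓ ^ a) ∈ U) (H : Subgroup G) (hle : U ≤ H)
    (hH : H ≠ ⊤) : ∃ K : Subgroup G, K.Normal ∧ K.index = ℓ ∧ H ≤ K := by
  haveI := hUn
  haveI := hUf
  have hp : IsPGroup ℓ (G ⧸ U) := by
    intro z
    obtain ⟨g, rfl⟩ := QuotientGroup.mk'_surjective U z
    obtain ⟨a, ha⟩ := hU g
    refine ⟨a, ?_⟩
    rw [← map_pow]
    exact (QuotientGroup.eq_one_iff _).2 ha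
  have hH' : H.map (QuotientGroup.mk' U) ≠ ⊤ := by
    intro h
    apply hH
    have h1 := congrArg (Subgroup.comap (QuotientGroup.mk' U)) h
    rw [Subgroup.comap_map_eq, QuotientGroup.ker_mk', Subgroup.comap_top, sup_eq_left.2 hle] at h1
    exact h1
  obtain ⟨K, hK1, hK2, hK3⟩ := exists_index hp _ hH'
  haveI := hK1
  refine ⟨K.comap (QuotientGroup.mk' U), inferInstance, ?_, ?_⟩
  · rw [Subgroup.index_comap_of_surjective _ (QuotientGroup.mk'_surjective U), hK2]
  · intro g hg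
    rw [Subgroup.mem_comap]
    exact hK3 ⟨g, hg, rfl⟩

/-- Burnside: an automorphism of a finite `ℓ`-group which is trivial modulo all subgroups of
index `ℓ` has `ℓ`-power order -/
theorem aut_ell {D : Type*} [Group D] [Finite D] (hD : IsPGroup ℓ D) (α : D ≃* D)
    (hα : ∀ K : Subgroup D, K.Normal → K.index = ℓ → ∀ d, α d * d⁻¹ ∈ K) :
    ∃ a : ℕ, (α : MulAut D) ^ (ℓ ^ a) = 1 := by
  classical
  haveI : Finite (MulAut D) := Finite.of_injective (fun β : MulAut D => (β : D → D))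
    DFunLike.coe_injective
  obtain ⟨A, hA⟩ : ∃ A : MulAut D, A = α := ⟨_, rfl⟩
  have hn : 0 < orderOf A := orderOf_pos A
  obtain ⟨a, m, hm, hmn⟩ := Nat.exists_eq_pow_mul_and_not_dvd hn.ne' ℓ hℓ.out.ne_one
  refine ⟨a, ?_⟩
  rw [← hA]
  by_contra hne
  have hm1 : m ≠ 1 := by
    rintro rfl
    rw [mul_one] at hmn
    apply hne
    rw [← hmn]
    exact pow_orderOf_eq_one A
  obtain ⟨r, hr, hrm⟩ := Nat.exists_prime_and_dvd hm1
  have hrℓ : r ≠ ℓ := by
    rintro rfl
    exact hm hrm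
  haveI : Fact r.Prime := ⟨hr⟩
  have hrn : r ∣ orderOf A := by rw [hmn]; exact hrm.mul_left _
  obtain ⟨n', hn'⟩ := hrn
  have hn'0 : n' ≠ 0 := by
    rintro rfl
    rw [mul_zero] at hn'
    omega
  obtain ⟨β, hβ⟩ : ∃ β : MulAut D, β = A ^ n' := ⟨_, rfl⟩
  have hβr : β ^ r = 1 := by
    rw [hβ, ← pow_mul, mul_comm, ← hn']
    exact pow_orderOf_eq_one A
  have hβ1 : β ≠ 1 := by
    intro h
    rw [hβ] at h
    have h1 := orderOf_dvd_of_pow_eq_one h
    have h2 := Nat.le_of_dvd (Nat.pos_of_ne_zero hn'0) h1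
    have h3 : 2 * n' ≤ orderOf A := by rw [hn']; exact Nat.mul_le_mul_right n' hr.two_le
    omega
  -- the powers are trivial modulo the subgroups of index `ℓ`
  have hpow : ∀ K : Subgroup D, K.Normal → K.index = ℓ → ∀ (i : ℕ) (d : D),
      (A ^ i) d * d⁻¹ ∈ K := by
    intro K hK1 hK2 i
    induction i with
    | zero =>
      intro d
      rw [pow_zero, MulAut.one_apply, mul_inv_cancel]
      exact one_mem _
    | succ i ih =>
      intro d
      rw [pow_succ, MulAut.mul_apply]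
      have h1 := ih (A d)
      have h2 : A d * d⁻¹ ∈ K := by rw [hA]; exact hα K hK1 hK2 d
      have h3 := mul_mem h1 h2
      rwa [mul_assoc, inv_mul_cancel_left] at h3
  -- the fixed points
  let Fx : Subgroup D :=
    { carrier := {d | β d = d}
      mul_mem' := fun {a b} ha hb => by
        change β (a * b) = a * b
        rw [map_mul, ha, hb]
      one_mem' := map_one β
      inv_mem' := fun {a} ha => by
        change β a⁻¹ = a⁻¹
        rw [map_inv, ha] }
  have hFx : Fx ≠ ⊤ := by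
    intro h
    apply hβ1
    ext d
    have : d ∈ Fx := by rw [h]; trivial
    exact this
  obtain ⟨K, hK1, hK2, hK3⟩ := exists_index hD Fx hFx
  have hKne : K ≠ ⊤ := by
    rintro rfl
    rw [Subgroup.index_top] at hK2
    exact hℓ.out.one_lt.ne hK2
  obtain ⟨d, hd⟩ : ∃ d, d ∉ K := by
    by_contra hno
    push Not at hno
    exact hKne (eq_top_iff.2 fun z _ => hno z)
  -- the coset of `d`
  let S : Type _ := {y : D // y * d⁻¹ ∈ K}
  haveI : Fintype S := Fintype.ofFinite _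
  let f : Function.End S := fun y => ⟨β y.1, by
    have h1 := hpow K hK1 hK2 n' y.1
    rw [← hβ] at h1
    have h2 := mul_mem h1 y.2
    rwa [mul_assoc, inv_mul_cancel_left] at h2⟩
  have hfp : ∀ (n : ℕ) (y : S), (((f ^ n) y : S) : D) = (β ^ n) (y : D) := by
    intro n
    induction n with
    | zero => intro y; rfl
    | succ n ih =>
      intro y
      rw [pow_succ, pow_succ, MulAut.mul_apply]
      change (((f ^ n) (f y) : S) : D) = _
      rw [ih]
  have hf : f ^ r ^ 1 = 1 := by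
    rw [pow_one]
    funext y
    apply Subtype.ext
    rw [hfp, hβr]
    rfl
  have h1 := Equiv.Perm.card_fixedPoints_modEq hf
  have hcard : Fintype.card S = Nat.card K := by
    rw [← Nat.card_eq_fintype_card]
    refine Nat.card_congr ⟨fun y => ⟨y.1 * d⁻¹, y.2⟩, fun z => ⟨z.1 * d, ?_⟩, ?_, ?_⟩
    · rw [mul_inv_cancel_right]; exact z.2
    · intro y
      apply Subtype.ext
      change (y.1 * d⁻¹) * d = y.1
      rw [inv_mul_cancel_right]
    · intro z
      apply Subtype.ext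
      change (z.1 * d) * d⁻¹ = z.1
      rw [mul_inv_cancel_right]
  obtain ⟨b, hb⟩ := IsPGroup.iff_card.1 (hD.to_subgroup K)
  have h2 : ¬ Fintype.card (Function.fixedPoints f) = 0 := by
    intro h0
    rw [h0, hcard, hb] at h1
    have h3 : r ∣ ℓ ^ b := (Nat.modEq_zero_iff_dvd).1 h1
    exact hrℓ ((Nat.prime_dvd_prime_iff_eq hr hℓ.out).1 (hr.dvd_of_dvd_pow h3))
  obtain ⟨⟨y, hy⟩⟩ : Nonempty (Function.fixedPoints f) := by
    rw [← Fintype.card_pos_iff]
    omega
  have h3 : (y : D) ∈ Fx := congrArg Subtype.val hy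
  have h4 := mul_mem (inv_mem y.2) (hK3 h3)
  rw [mul_inv_rev, inv_inv, mul_assoc, inv_mul_cancel, mul_one] at h4
  exact hd h4

section gt

variable {G A : Type*} [Group G] [Group A] {D : Subgroup A}

/-- conjugation by an element which normalises `D` -/
def cj (D : Subgroup A) (a : A) (h : ∀ d ∈ D, a * d * a⁻¹ ∈ D) (h' : ∀ d ∈ D, a⁻¹ * d * a ∈ D) :
    D ≃* D where
  toFun d := ⟨a * d * a⁻¹, h d d.2⟩
  invFun d := ⟨a⁻¹ * d * a, h' d d.2⟩
  left_inv d := Subtype.ext (by
    change a⁻¹ * (a * d * a⁻¹) * a = d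
    group)
  right_inv d := Subtype.ext (by
    change a * (a⁻¹ * d * a) * a⁻¹ = d
    group)
  map_mul' d d' := Subtype.ext (by
    change a * (d * d') * a⁻¹ = a * d * a⁻¹ * (a * d' * a⁻¹)
    group)

/-- the element `a` is trivial modulo the subgroups of index `ℓ` of `D` -/
def TrivMod (ℓ : ℕ) (D : Subgroup A) (a : A) : Prop :=
  ∀ K : Subgroup D, K.Normal → K.index = ℓ → ∀ (d : A) (hd : d ∈ D),
    ∃ h : a * d * a⁻¹ * d⁻¹ ∈ D, (⟨_, h⟩ : D) ∈ K

theorem pow_central (hD : IsPGroup ℓ D) [Finite D] {a : A} (h : ∀ d ∈ D, a * d * a⁻¹ ∈ D)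
    (h' : ∀ d ∈ D, a⁻¹ * d * a ∈ D) (ht : TrivMod ℓ D a) :
    ∃ b : ℕ, ∀ d ∈ D, a ^ (ℓ ^ b) * d = d * a ^ (ℓ ^ b) := by
  obtain ⟨b, hb⟩ := aut_ell hD (cj D a h h') (by
    intro K hK1 hK2 d
    obtain ⟨h1, h2⟩ := ht K hK1 hK2 d.1 d.2
    have h3 : cj D a h h' d * d⁻¹ = ⟨_, h1⟩ := Subtype.ext rfl
    rw [h3]
    exact h2)
  have hpow : ∀ (n : ℕ) (d : D), ((((cj D a h h' : MulAut D) ^ n) d : D) : A) =
      a ^ n * d * (a ^ n)⁻¹ := by
    intro n
    induction n with
    | zero =>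
      intro d
      rw [pow_zero, pow_zero, MulAut.one_apply]
      group
    | succ n ih =>
      intro d
      rw [pow_succ, MulAut.mul_apply, ih, pow_succ, mul_inv_rev]
      change a ^ n * (a * d * a⁻¹) * (a ^ n)⁻¹ = _
      group
  refine ⟨b, fun d hd => ?_⟩
  have h1 := hpow (ℓ ^ b) ⟨d, hd⟩
  rw [hb, MulAut.one_apply] at h1
  change d = a ^ (ℓ ^ b) * d * (a ^ (ℓ ^ b))⁻¹ at h1
  rw [eq_mul_inv_iff_mul_eq] at h1
  exact h1.symm

/-- **two homomorphisms which differ by elements of a finite `ℓ`-group** are equal, or they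
coincide only inside a normal subgroup of index `ℓ` -/
theorem gt [Finite D] (hD : IsPGroup ℓ D) (s t : G →* A) (hst : ∀ g, s g * (t g)⁻¹ ∈ D)
    (hn : ∀ g, ∀ d ∈ D, t g * d * (t g)⁻¹ ∈ D)
    (hΦ : ∀ g : G, ∃ a : ℕ, TrivMod ℓ D (t (g ^ (ℓ ^ a)))) :
    (∀ g, s g = t g) ∨ ∃ K : Subgroup G, K.Normal ∧ K.index = ℓ ∧ ∀ g, s g = t g → g ∈ K := by
  classical
  by_cases hall : ∀ g, s g = t g
  · exact Or.inl hall
  right
  have hn' : ∀ g, ∀ d ∈ D, (t g)⁻¹ * d * t g ∈ D := by
    intro g d hd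
    have := hn g⁻¹ d hd
    rwa [map_inv, inv_inv] at this
  have hmem : ∀ g, ∀ d ∈ D, s g * d * (t g)⁻¹ ∈ D := by
    intro g d hd
    have h1 := mul_mem (hst g) (hn g d hd)
    have h2 : s g * (t g)⁻¹ * (t g * d * (t g)⁻¹) = s g * d * (t g)⁻¹ := by group
    rwa [h2] at h1
  let ψ : G →* Equiv.Perm D :=
    { toFun := fun g =>
        { toFun := fun d => ⟨s g * d * (t g)⁻¹, hmem g d d.2⟩
          invFun := fun d => ⟨s g⁻¹ * d * (t g⁻¹)⁻¹, hmem g⁻¹ d d.2⟩
          left_inv := fun d => Subtype.ext (by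
            change s g⁻¹ * (s g * d * (t g)⁻¹) * (t g⁻¹)⁻¹ = d
            rw [map_inv, map_inv]
            group)
          right_inv := fun d => Subtype.ext (by
            change s g * (s g⁻¹ * d * (t g⁻¹)⁻¹) * (t g)⁻¹ = d
            rw [map_inv, map_inv]
            group) }
      map_one' := by
        ext d
        change s 1 * (d : A) * (t 1)⁻¹ = d
        rw [map_one, map_one]
        group
      map_mul' := fun g g' => by
        ext d
        change s (g * g') * (d : A) * (t (g * g'))⁻¹ = s g * (s g' * d * (t g')⁻¹) * (t g)⁻¹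
        rw [map_mul, map_mul]
        group }
  have hψ : ∀ g, g ∈ ψ.ker ↔ ∀ d ∈ D, s g * d * (t g)⁻¹ = d := by
    intro g
    rw [MonoidHom.mem_ker]
    constructor
    · intro h d hd
      have h1 := DFunLike.congr_fun h ⟨d, hd⟩
      exact congrArg Subtype.val h1
    · intro h
      ext d
      exact h d d.2
  let H : Subgroup G := s.eqLocus t
  have hH : H ≠ ⊤ := by
    intro h
    apply hall
    intro g
    have : g ∈ H := by rw [h]; trivial
    exact this
  obtain ⟨K, h1, h2, h3⟩ := exists_index' ψ.ker inferInstance inferInstance (by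
    intro g
    obtain ⟨a, ha⟩ := hΦ g
    obtain ⟨b, hb⟩ := pow_central hD (hn (g ^ (ℓ ^ a))) (hn' (g ^ (ℓ ^ a))) ha
    obtain ⟨c, hc⟩ := IsPGroup.iff_card.1 hD
    obtain ⟨u, hu⟩ : ∃ u, u = g ^ (ℓ ^ (a + b)) := ⟨_, rfl⟩
    have hu1 : t u = t (g ^ (ℓ ^ a)) ^ (ℓ ^ b) := by
      rw [hu, pow_add, pow_mul, map_pow]
    have hu2 : ∀ d ∈ D, t u * d = d * t u := by
      intro d hd
      rw [hu1]
      exact hb d hd
    refine ⟨a + b + c, ?_⟩
    have hg : g ^ (ℓ ^ (a + b + c)) = u ^ (ℓ ^ c) := by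
      rw [hu, ← pow_mul, ← pow_add]
    rw [hg, hψ]
    obtain ⟨n, hnn⟩ : ∃ n, n = s u * (t u)⁻¹ := ⟨_, rfl⟩
    have hnD : n ∈ D := by rw [hnn]; exact hst u
    have hsu : s u = n * t u := by rw [hnn]; group
    have hcomm : Commute n (t u) := (hu2 n hnD).symm
    have hsp : s (u ^ (ℓ ^ c)) = t (u ^ (ℓ ^ c)) := by
      rw [map_pow, map_pow, hsu, hcomm.mul_pow]
      have hn1 : n ^ (ℓ ^ c) = 1 := by
        have h4 : (⟨n, hnD⟩ : D) ^ (ℓ ^ c) = 1 := by
          rw [← hc]
          exact pow_card_eq_one'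
        exact congrArg Subtype.val h4
      rw [hn1, one_mul]
    intro d hd
    rw [hsp, map_pow]
    have h5 : Commute (t u) d := hu2 d hd
    rw [(h5.pow_left _).eq]
    group) H (by
    intro g hg
    have h4 := (hψ g).1 hg 1 (one_mem _)
    rw [mul_one] at h4
    exact mul_inv_eq_one.1 h4) hH
  exact ⟨K, h1, h2, fun g hg => h3 hg⟩

/-- the character attached to a normal subgroup of index `ℓ` -/
theorem exists_chi {κ : Type*} [Field κ] {ζ : κ} (hζ : IsPrimitiveRoot ζ ℓ) (K : Subgroup G)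
    (hK : K.Normal) (hi : K.index = ℓ) :
    ∃ χ : G → κ, (∀ g, χ g ^ ℓ = 1) ∧ (∀ g g', χ (g * g') = χ g * χ g') ∧ ∀ g, χ g = 1 ↔ g ∈ K := by
  classical
  haveI := hK
  haveI : NeZero ℓ := ⟨hℓ.out.ne_zero⟩
  have h1 : Nat.card (G ⧸ K) = ℓ := hi
  have h2 : Nat.card (rootsOfUnity ℓ κ) = ℓ := hζ.card_rootsOfUnity
  let e : (G ⧸ K) ≃* rootsOfUnity ℓ κ := mulEquivOfPrimeCardEq (p := ℓ) h1 h2
  refine ⟨fun g => ((e (QuotientGroup.mk' K g) : κˣ) : κ), fun g => ?_, fun g g' => ?_, fun g => ?_⟩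
  · have := (e (QuotientGroup.mk' K g)).2
    rw [mem_rootsOfUnity] at this
    have h3 := congrArg (fun y : κˣ => (y : κ)) this
    simpa using h3
  · change ((e (QuotientGroup.mk' K (g * g')) : κˣ) : κ) = _
    rw [map_mul, map_mul]
    rfl
  · change ((e (QuotientGroup.mk' K g) : κˣ) : κ) = 1 ↔ _
    rw [Units.val_eq_one, OneMemClass.coe_eq_one, EmbeddingLike.map_eq_one_iff]
    exact QuotientGroup.eq_one_iff g

end gt

end Pool.Agent.H889.RG
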