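import Pool.Agent.H889.RG.Grp
import Pool.Agent.H889.PS.Loc
import Pool.Graph.R_seed8.Y158.GR.Rat

/-!
# The extensions of degree `ℓ` of `κ(x)` in `M`

(helper889.)
-/

set_option autoImplicit false
set_option linter.all false

open Polynomial FF

namespace Pool.Agent.H889.RG

open Pool.Agent.Y157.PS Pool.Agent.H889.PS

section

variable {ℓ : ℕ} [hℓ : Fact ℓ.Prime] {κ R M : Type} [Field κ] [IsAlgClosed κ] [CharZero κ]
  [Field R] [Field M] [Algebra κ R] [Algebra R M] [Algebra κ M] [IsScalarTower κ R M] {x : R}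
  {B : Finset κ} {ε : κ → ℕ} {ι : ℕ} {N₀ : IntermediateField R M}

open Classical in
theorem rootMult_prod (B : Finset κ) (n : κ → ℕ) (b : κ) :
    (∏ e ∈ B, (X - C e) ^ n e : κ[X]).rootMultiplicity b = if b ∈ B then n b else 0 := by
  classical
  induction B using Finset.induction_on with
  | empty =>
    rw [Finset.prod_empty, ← C_1, rootMultiplicity_C]
    rfl
  | insert e B' he ih =>
    rw [Finset.prod_insert he, rootMultiplicity_mul, ih]
    · by_cases hbe : b = e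
      · subst hbe
        rw [rootMultiplicity_X_sub_C_pow, if_neg he, if_pos (Finset.mem_insert_self _ _), add_zero]
      · have h0 : rootMultiplicity b ((X - C e) ^ n e) = 0 := by
          rw [rootMultiplicity_eq_zero]
          rw [IsRoot.def, eval_pow, eval_sub, eval_X, eval_C]
          exact pow_ne_zero _ (sub_ne_zero.2 hbe)
        rw [h0, zero_add]
        by_cases hb : b ∈ B'
        · rw [if_pos hb, if_pos (Finset.mem_insert_of_mem hb)]
        · rw [if_neg hb, if_neg (by rw [Finset.mem_insert]; tauto)]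
    · refine mul_ne_zero (pow_ne_zero _ (X_sub_C_ne_zero e)) ?_
      rw [Finset.prod_ne_zero_iff]
      intro a _
      exact pow_ne_zero _ (X_sub_C_ne_zero a)

/-- the radicals of degree `ℓ` over `κ(x)` in `M` -/
theorem kum_form (hC : GCov ℓ κ R M x B ε ι N₀) {h : M} (h0 : h ≠ 0)
    (hr : ∃ r : R, algebraMap R M r = h ^ ℓ) :
    ∃ (w : R) (m : κ → ℕ), w ≠ 0 ∧ (algebraMap R M w / h) ^ ℓ =
      ∏ e ∈ B, (algebraMap R M x - algebraMap κ M e) ^ m e := by
  classical
  obtain ⟨r, hr⟩ := hr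
  obtain ⟨p, q, hq, hpq⟩ := hC.rat.exists_div r
  have hℓ0 : ℓ ≠ 0 := hℓ.out.ne_zero
  have hinjx : Function.Injective (aeval (algebraMap R M x) : κ[X] →ₐ[κ] M) := by
    rw [injective_iff_map_eq_zero]
    intro P hP
    rw [aeval_algebraMap_apply, _root_.map_eq_zero] at hP
    exact (transcendental_iff.1 hC.rat.trans) P hP
  have hq' : aeval (algebraMap R M x) q ≠ 0 := by
    rw [aeval_algebraMap_apply]
    exact (_root_.map_ne_zero _).2 hq
  obtain ⟨P, hP⟩ : ∃ P : κ[X], P = p * q ^ (ℓ - 1) := ⟨_, rfl⟩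
  obtain ⟨h', hh'⟩ : ∃ h' : M, h' = h * aeval (algebraMap R M x) q := ⟨_, rfl⟩
  have hh'0 : h' ≠ 0 := by rw [hh']; exact mul_ne_zero h0 hq'
  have hpq' : h ^ ℓ * aeval (algebraMap R M x) q = aeval (algebraMap R M x) p := by
    rw [← hr, aeval_algebraMap_apply, aeval_algebraMap_apply, ← map_mul]
    congr 1
    rw [hpq, div_mul_cancel₀ _ hq]
  have hP' : h' ^ ℓ = aeval (algebraMap R M x) P := by
    rw [hP, map_mul, map_pow, ← hpq', hh', mul_pow]
    obtain ⟨n, rfl⟩ : ∃ n, ℓ = n + 1 := ⟨ℓ - 1, by omega⟩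
    rw [Nat.add_sub_cancel]
    ring
  have hP0 : P ≠ 0 := by
    rintro h
    rw [h, map_zero] at hP'
    exact pow_ne_zero ℓ hh'0 hP'
  obtain ⟨P2, hP2⟩ : ∃ P2 : κ[X], P2 = P * ∏ e ∈ B, (X - C e) ^ ((ℓ - 1) * P.rootMultiplicity e) :=
    ⟨_, rfl⟩
  have hprod0 : (∏ e ∈ B, (X - C e) ^ ((ℓ - 1) * P.rootMultiplicity e) : κ[X]) ≠ 0 := by
    rw [Finset.prod_ne_zero_iff]
    intro a _
    exact pow_ne_zero _ (X_sub_C_ne_zero a)
  have hP20 : P2 ≠ 0 := by rw [hP2]; exact mul_ne_zero hP0 hprod0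
  obtain ⟨c, Q, hc, hQ, hPQ⟩ := Pool.Agent.Y158.GR.poly_pow (ℓ := ℓ) P2 hP20 (by
    intro b
    rw [hP2, rootMultiplicity_mul (mul_ne_zero hP0 hprod0), rootMult_prod]
    by_cases hb : b ∈ B
    · rw [if_pos hb]
      refine ⟨P.rootMultiplicity b, ?_⟩
      obtain ⟨n, hn⟩ : ∃ n, ℓ = n + 1 := ⟨ℓ - 1, by omega⟩
      rw [hn, Nat.add_sub_cancel]
      ring
    · rw [if_neg hb, add_zero]
      obtain ⟨W, hW⟩ := exists_place hC b
      obtain ⟨-, h1⟩ := Pool.Agent.Y248.PS.ord_eval W hW hP0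
      rw [← hP', W.ord_pow, ord_at hC hW, hC.supp b hb, pow_zero, mul_one] at h1
      have h2 : (ℓ : ℤ) ∣ (P.rootMultiplicity b : ℤ) := ⟨W.ord h', by rw [← h1]⟩
      exact_mod_cast h2)
  obtain ⟨c0, hc0⟩ := IsAlgClosed.exists_pow_nat_eq c hℓ.out.pos
  obtain ⟨w', hw'⟩ : ∃ w' : R, w' = algebraMap κ R c0 * aeval x Q / aeval x q := ⟨_, rfl⟩
  have hQx : aeval (algebraMap R M x) Q ≠ 0 := by
    intro h
    apply hQ
    apply hinjx
    rw [h, map_zero]
  have hc00 : c0 ≠ 0 := by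
    rintro rfl
    rw [zero_pow hℓ0] at hc0
    exact hc hc0.symm
  have hw'M : algebraMap R M w' = algebraMap κ M c0 * aeval (algebraMap R M x) Q /
      aeval (algebraMap R M x) q := by
    rw [hw', map_div₀, map_mul, ← IsScalarTower.algebraMap_apply, aeval_algebraMap_apply,
      aeval_algebraMap_apply]
  refine ⟨w', fun e => (ℓ - 1) * P.rootMultiplicity e, ?_, ?_⟩
  · intro h
    rw [h, map_zero] at hw'M
    have : algebraMap κ M c0 * aeval (algebraMap R M x) Q / aeval (algebraMap R M x) q ≠ 0 :=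
      div_ne_zero (mul_ne_zero ((_root_.map_ne_zero _).2 hc00) hQx) hq'
    exact this hw'M.symm
  · have h1 : algebraMap R M w' / h = algebraMap κ M c0 * aeval (algebraMap R M x) Q / h' := by
      rw [hw'M, hh']
      field_simp
    have h2 : (algebraMap κ M c0 * aeval (algebraMap R M x) Q) ^ ℓ =
        aeval (algebraMap R M x) P2 := by
      rw [mul_pow, ← map_pow, hc0, hPQ, map_mul, map_pow, aeval_C]
    rw [h1, div_pow, h2, hP', hP2, map_mul, mul_div_cancel_left₀]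
    · rw [map_prod]
      refine Finset.prod_congr rfl fun e _ => ?_
      rw [map_pow, map_sub, aeval_X, aeval_C]
    · rw [← hP']
      exact pow_ne_zero _ hh'0

/-- the normal subgroups of index `ℓ` of the Galois group of a level -/
theorem index_form (hC : GCov ℓ κ R M x B ε ι N₀) {L : IntermediateField R M} (hL : Lev ℓ L)
    (K : Subgroup (L ≃ₐ[R] L)) (hK : K.Normal) (hi : K.index = ℓ) :
    ∃ (h : L) (m : κ → ℕ), h ≠ 0 ∧ (∀ d : L ≃ₐ[R] L, d ∈ K ↔ d h = h) ∧
      (∀ d : L ≃ₐ[R] L, ∃ c : κ, c ^ ℓ = 1 ∧ d h = algebraMap κ L c * h) ∧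
      (h : M) ^ ℓ = ∏ e ∈ B, (algebraMap R M x - algebraMap κ M e) ^ m e := by
  classical
  haveI := hL.fin
  haveI := hL.gal
  haveI : NeZero ℓ := ⟨hℓ.out.ne_zero⟩
  haveI : NeZero (ℓ : κ) := ⟨Nat.cast_ne_zero.2 hℓ.out.ne_zero⟩
  obtain ⟨ζ, hζ⟩ := HasEnoughRootsOfUnity.exists_primitiveRoot κ ℓ
  obtain ⟨χ, h1, h2, h3⟩ := exists_chi hζ K hK hi
  have hχ0 : ∀ d, χ d ≠ 0 := by
    intro d h
    have := h1 d
    rw [h, zero_pow hℓ.out.ne_zero] at this
    exact zero_ne_one this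
  let χ' : (L ≃ₐ[R] L) →* κˣ :=
    { toFun := fun d => Units.mk0 (χ d) (hχ0 d)
      map_one' := by
        ext
        change χ 1 = 1
        exact (h3 1).2 (one_mem _)
      map_mul' := fun d d' => by
        ext
        exact h2 d d' }
  obtain ⟨β, hβ0, hβ⟩ := exists_kummer χ'
  have hβ' : ∀ d : L ≃ₐ[R] L, d β = algebraMap κ L (χ d) * β := fun d => hβ d
  have hβR : ∃ r : R, algebraMap R M r = (β : M) ^ ℓ := by
    have h4 : β ^ ℓ ∈ (⊥ : IntermediateField R L) := by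
      rw [IsGalois.mem_bot_iff_fixed]
      intro d
      rw [map_pow, hβ', mul_pow, ← map_pow, h1, map_one, one_mul]
    obtain ⟨r, hr⟩ := IntermediateField.mem_bot.1 h4
    refine ⟨r, ?_⟩
    have := congrArg (fun y : L => (y : M)) hr
    exact this
  have hβM : (β : M) ≠ 0 := by
    intro h
    exact hβ0 (Subtype.ext h)
  obtain ⟨w, m, hw, hm⟩ := kum_form hC hβM hβR
  have hwL : algebraMap R L w ≠ 0 := (_root_.map_ne_zero _).2 hw
  have hd : ∀ d : L ≃ₐ[R] L, d (algebraMap R L w / β) =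
      algebraMap κ L (χ d)⁻¹ * (algebraMap R L w / β) := by
    intro d
    have hc := hχ0 d
    rw [map_div₀, AlgEquiv.commutes, hβ', map_inv₀]
    have : algebraMap κ L (χ d) ≠ 0 := (_root_.map_ne_zero _).2 hc
    field_simp
  have hne : algebraMap R L w / β ≠ 0 := div_ne_zero hwL hβ0
  refine ⟨algebraMap R L w / β, m, hne, fun d => ?_, fun d => ⟨(χ d)⁻¹, ?_, hd d⟩, ?_⟩
  · rw [← h3 d, hd]
    constructor
    · intro h
      rw [h, inv_one, map_one, one_mul]
    · intro h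
      have h4 : algebraMap κ L (χ d)⁻¹ * (algebraMap R L w / β) = 1 * (algebraMap R L w / β) := by
        rw [h, one_mul]
      have h5 := mul_right_cancel₀ hne h4
      have h6 : (χ d)⁻¹ = 1 := (algebraMap κ L).injective (by rw [h5, map_one])
      exact inv_eq_one.1 h6
  · rw [inv_pow, h1, inv_one]
  · have : ((algebraMap R L w / β : L) : M) = algebraMap R M w / (β : M) := rfl
    rw [this]
    exact hm

end

end Pool.Agent.H889.RG
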